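import Pool.Agent.P8H16.RF.Stm
import Pool.Agent.Y959.Rs.Hal

/-!
# Project RF, package HAL
-/

set_option autoImplicit false

open Finset

namespace Pool.Agent.P8H29.RF

open Pool.Agent.P8H16.RF Pool.Agent.TH705.DL Pool.Agent.Y959.Rs

theorem F_ph (M : ℕ) (a : ℕ → ℂ) (n : ℕ) :
    F M a (Real.log n) = ∑ t ∈ range M, a t * ph (t : ℝ) n := by
  unfold F
  refine sum_congr rfl fun t _ => ?_
  rw [ph_eq]
  rfl

/-- the kernel majorant -/
noncomputable def Dk (N T : ℕ) (i j : Fin (T + 1)) : ℝ :=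
  if i = j then (N : ℝ) + 1 else 42 * N * (1 / |((i : ℕ) : ℝ) - ((j : ℕ) : ℝ)|)

theorem Dk_symm (N T : ℕ) (i j : Fin (T + 1)) : Dk N T i j = Dk N T j i := by
  unfold Dk
  by_cases h : i = j
  · rw [if_pos h, if_pos h.symm]
  · rw [if_neg h, if_neg (Ne.symm h), abs_sub_comm]

theorem Dk_nonneg (N T : ℕ) (i j : Fin (T + 1)) : 0 ≤ Dk N T i j := by
  unfold Dk
  split_ifs <;> positivity

theorem Dk_sum (N T : ℕ) (i : Fin (T + 1)) :
    ∑ j, Dk N T i j ≤ N + 1 + 84 * N * (1 + Real.log (T + 1)) := by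
  classical
  rw [← add_sum_erase univ _ (mem_univ i)]
  have h1 : Dk N T i i = N + 1 := by unfold Dk; rw [if_pos rfl]
  have h2 : ∑ j ∈ univ.erase i, Dk N T i j = 42 * N * ∑ j ∈ univ.erase i, 1 / |((i : ℕ) : ℝ) - ((j : ℕ) : ℝ)| := by
    rw [mul_sum]
    refine sum_congr rfl fun j hj => ?_
    unfold Dk
    rw [if_neg (ne_of_mem_erase hj).symm]
  have h3 := mul_le_mul_of_nonneg_left (harm_one T univ i) (by positivity : (0 : ℝ) ≤ 42 * N)
  rw [h1, h2]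
  linarith

/-- the inequality of Halász and Montgomery with coefficients -/
theorem hal_sq (N T : ℕ) (μ : ℝ) (hμ : 0 ≤ μ) (hK : Ker N T μ) (b : Fin (T + 1) → ℂ) :
    ∑ n ∈ Icc N (2 * N), ‖∑ i, b i * ph (((i : ℕ) : ℝ)) n‖ ^ 2 ≤
      (N + 1 + 84 * N * (1 + Real.log (T + 1))) * ∑ i, ‖b i‖ ^ 2 + μ * (∑ i, ‖b i‖) ^ 2 := by
  classical
  have h1 : ((∑ n ∈ Icc N (2 * N), ‖∑ i, b i * ph (((i : ℕ) : ℝ)) n‖ ^ 2 : ℝ) : ℂ) =
      ∑ i, ∑ j, b i * (starRingEnd ℂ) (b j) *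
        ∑ n ∈ Icc N (2 * N), ph (((i : ℕ) : ℝ) - ((j : ℕ) : ℝ)) n := by
    push_cast
    have h2 : ∀ n ∈ Icc N (2 * N), ((‖∑ i, b i * ph (((i : ℕ) : ℝ)) n‖ : ℂ)) ^ 2 =
        ∑ i, ∑ j, b i * (starRingEnd ℂ) (b j) *
          ph (((i : ℕ) : ℝ) - ((j : ℕ) : ℝ)) n := by
      intro n _
      rw [← Complex.mul_conj', map_sum, sum_mul_sum]
      apply sum_congr rfl
      intro i _
      apply sum_congr rfl
      intro j _
      rw [map_mul, ← ph_sub]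
      ring
    rw [sum_congr rfl h2, sum_comm]
    apply sum_congr rfl
    intro i _
    rw [sum_comm]
    apply sum_congr rfl
    intro j _
    rw [mul_sum]
  have h3 : ∑ n ∈ Icc N (2 * N), ‖∑ i, b i * ph (((i : ℕ) : ℝ)) n‖ ^ 2 ≤
      ∑ i, ∑ j, ‖b i‖ * ‖b j‖ * ‖∑ n ∈ Icc N (2 * N), ph (((i : ℕ) : ℝ) - ((j : ℕ) : ℝ)) n‖ := by
    have h0 : 0 ≤ ∑ n ∈ Icc N (2 * N), ‖∑ i, b i * ph (((i : ℕ) : ℝ)) n‖ ^ 2 :=
      sum_nonneg fun _ _ => sq_nonneg _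
    rw [← Real.norm_of_nonneg h0, ← Complex.norm_real, h1]
    refine (norm_sum_le _ _).trans (sum_le_sum fun i _ => ?_)
    refine (norm_sum_le _ _).trans (sum_le_sum fun j _ => ?_)
    rw [norm_mul, norm_mul, RCLike.norm_conj]
  refine h3.trans ?_
  have h4 : ∀ i j : Fin (T + 1), ‖b i‖ * ‖b j‖ * ‖∑ n ∈ Icc N (2 * N), ph (((i : ℕ) : ℝ) - ((j : ℕ) : ℝ)) n‖ ≤
      (1 / 2 * (‖b i‖ ^ 2 * Dk N T i j) + 1 / 2 * (‖b j‖ ^ 2 * Dk N T j i)) + μ * (‖b i‖ * ‖b j‖) := by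
    intro i j
    have hb : 0 ≤ ‖b i‖ * ‖b j‖ := by positivity
    have h5 : ‖∑ n ∈ Icc N (2 * N), ph (((i : ℕ) : ℝ) - ((j : ℕ) : ℝ)) n‖ ≤ Dk N T i j + μ := by
      by_cases h : i = j
      · unfold Dk
        rw [if_pos h]
        have := triv N (((i : ℕ) : ℝ) - ((j : ℕ) : ℝ))
        linarith
      · have h6 := ker_abs N T μ hK i j h
        unfold Dk
        rw [if_neg h]
        exact h6
    have h7 := mul_le_mul_of_nonneg_left h5 hb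
    have h8 : ‖b i‖ * ‖b j‖ ≤ 1 / 2 * ‖b i‖ ^ 2 + 1 / 2 * ‖b j‖ ^ 2 := by
      nlinarith [sq_nonneg (‖b i‖ - ‖b j‖)]
    have h9 := mul_le_mul_of_nonneg_right h8 (Dk_nonneg N T i j)
    rw [Dk_symm N T j i]
    linarith
  refine (sum_le_sum fun i _ => sum_le_sum fun j _ => h4 i j).trans ?_
  simp only [sum_add_distrib, ← mul_sum]
  rw [sum_comm (f := fun i j : Fin (T + 1) => ‖b j‖ ^ 2 * Dk N T j i)]
  simp only [← mul_sum, ← sum_mul]
  have h10 : ∑ i, ‖b i‖ ^ 2 * ∑ j, Dk N T i j ≤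
      (N + 1 + 84 * N * (1 + Real.log (T + 1))) * ∑ i, ‖b i‖ ^ 2 := by
    rw [mul_sum]
    refine sum_le_sum fun i _ => ?_
    rw [mul_comm]
    exact mul_le_mul_of_nonneg_right (Dk_sum N T i) (sq_nonneg _)
  have h11 : (∑ i, ‖b i‖) ^ 2 = (∑ i, ‖b i‖) * ∑ i, ‖b i‖ := sq _
  rw [h11]
  linarith

theorem hal_arith (X Y : ℝ) (hX : 0 ≤ X) (hY : 0 ≤ Y) : 340 * X ^ 2 + 28 * Y ^ 2 ≤ 400 * (X + Y) ^ 2 := by
  nlinarith [mul_nonneg hX hY, sq_nonneg X, sq_nonneg Y]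

theorem hal : S_HAL := by
  intro κ hκ0 hκ1 ε hε
  refine ⟨20 * (1 + 1 / ε), by positivity, ?_⟩
  intro N M a hN hM
  have hN1 : (1 : ℝ) ≤ N := by exact_mod_cast hN
  have hN0 : (0 : ℝ) < N := by linarith
  have hlog : 0 ≤ Real.log N := Real.log_nonneg hN1
  obtain ⟨L, hL⟩ : ∃ L : ℝ, L = 1 + Real.log N := ⟨_, rfl⟩
  have hL1 : 1 ≤ L := by linarith
  obtain ⟨s2, hs2⟩ : ∃ s2 : ℝ, s2 = n2 M a := ⟨_, rfl⟩
  obtain ⟨s1, hs1⟩ : ∃ s1 : ℝ, s1 = n1 M a := ⟨_, rfl⟩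
  have h20 : 0 ≤ s2 := by rw [hs2]; exact Real.sqrt_nonneg _
  have h10 : 0 ≤ s1 := by rw [hs1]; exact sum_nonneg fun _ _ => norm_nonneg _
  rw [← hs2, ← hs1]
  obtain ⟨P, hP⟩ : ∃ P : ℝ, P = (N : ℝ) ^ ((3 + κ) / 4) := ⟨_, rfl⟩
  have hP0 : 0 < P := by rw [hP]; positivity
  obtain ⟨B, hB⟩ : ∃ B : ℝ, B = N * s2 + P * s1 := ⟨_, rfl⟩
  have hB0 : 0 ≤ B := by rw [hB]; positivity
  rw [← hP, ← hB]
  -- the logarithm
  have hLe : L ≤ (1 + 1 / ε) * (N : ℝ) ^ ε := by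
    have h2 : Real.log N ≤ (N : ℝ) ^ ε / ε := Real.log_le_rpow_div (by linarith) hε
    have h3 : 1 ≤ (N : ℝ) ^ ε := Real.one_le_rpow hN1 hε.le
    rw [hL]
    calc 1 + Real.log N ≤ (N : ℝ) ^ ε + (N : ℝ) ^ ε / ε := add_le_add h3 h2
      _ = (1 + 1 / ε) * (N : ℝ) ^ ε := by ring
  have hgoal : ∑ n ∈ Icc N (2 * N), ‖F M a (Real.log n)‖ ≤ 20 * L * B := by
    rcases Nat.eq_zero_or_pos M with h0 | hpos
    · rw [h0]
      have : ∑ n ∈ Icc N (2 * N), ‖F 0 a (Real.log n)‖ = 0 := by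
        refine sum_eq_zero fun n _ => ?_
        unfold F
        simp
      rw [this]
      positivity
    obtain ⟨T, rfl⟩ : ∃ T : ℕ, M = T + 1 := ⟨M - 1, by omega⟩
    have hT : (T : ℝ) ≤ (N : ℝ) ^ (1 + κ) := by
      push_cast at hM
      linarith
    have hT2 : (T : ℝ) ≤ (N : ℝ) ^ 2 := by
      refine hT.trans ?_
      rw [← Real.rpow_natCast]
      exact Real.rpow_le_rpow_of_exponent_le hN1 (by push_cast; linarith)
    have hT0 : (0 : ℝ) ≤ T := Nat.cast_nonneg _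
    have hker := ker_sqrt N hN T hT2
    rw [← hL] at hker
    have hsq := hal_sq N T _ (by positivity) hker (fun i => a (i : ℕ))
    have e1 : ∑ i : Fin (T + 1), ‖a (i : ℕ)‖ ^ 2 = s2 ^ 2 := by
      rw [hs2]
      unfold n2
      rw [Real.sq_sqrt (sum_nonneg fun _ _ => sq_nonneg _), Finset.sum_range]
    have e2 : ∑ i : Fin (T + 1), ‖a (i : ℕ)‖ = s1 := by
      rw [hs1]
      unfold n1
      rw [Finset.sum_range]
    have e3 : ∀ n : ℕ, ∑ i : Fin (T + 1), a (i : ℕ) * ph (((i : ℕ) : ℝ)) n = F (T + 1) a (Real.log n) := by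
      intro n
      rw [F_ph, Finset.sum_range]
    simp only [e1, e2, e3] at hsq
    -- the constants
    have hlogT : Real.log (T + 1) ≤ 1 + 2 * Real.log N := by
      have h5 : (T : ℝ) + 1 ≤ 2 * (N : ℝ) ^ 2 := by
        have : (1 : ℝ) ≤ (N : ℝ) ^ 2 := one_le_pow₀ hN1
        linarith
      refine (Real.log_le_log (by positivity) h5).trans ?_
      rw [Real.log_mul (by norm_num) (by positivity), Real.log_pow]
      have := Real.log_two_lt_d9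
      push_cast
      linarith
    have hA : (N : ℝ) + 1 + 84 * N * (1 + Real.log (T + 1)) ≤ 170 * (N * L) := by
      have h6 : (84 * (N : ℝ)) * (1 + Real.log (T + 1)) ≤ (84 * N) * (2 * L) :=
        mul_le_mul_of_nonneg_left (by rw [hL]; linarith) (by positivity)
      have h7 : (N : ℝ) * 1 ≤ N * L := mul_le_mul_of_nonneg_left hL1 hN0.le
      linarith
    have hP2 : P ^ 2 = N * (N : ℝ) ^ ((1 + κ) / 2) := by
      rw [hP, ← Real.rpow_natCast, ← Real.rpow_mul hN0.le]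
      nth_rewrite 2 [← Real.rpow_one (N : ℝ)]
      rw [← Real.rpow_add hN0]
      congr 1
      push_cast
      ring
    have hmu : 14 * Real.sqrt (T * L) ≤ 14 * ((N : ℝ) ^ ((1 + κ) / 2) * L) := by
      refine mul_le_mul_of_nonneg_left ?_ (by norm_num)
      refine Real.sqrt_le_iff.2 ⟨by positivity, ?_⟩
      rw [mul_pow, ← Real.rpow_natCast ((N : ℝ) ^ ((1 + κ) / 2)), ← Real.rpow_mul hN0.le]
      have e4 : (1 + κ) / 2 * ((2 : ℕ) : ℝ) = 1 + κ := by push_cast; ring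
      rw [e4]
      have h8 : L ≤ L ^ 2 := le_self_pow₀ hL1 (by norm_num)
      exact mul_le_mul hT h8 (by linarith) (by positivity)
    -- Cauchy-Schwarz
    have hcs : (∑ n ∈ Icc N (2 * N), ‖F (T + 1) a (Real.log n)‖) ^ 2 ≤
        ((N : ℝ) + 1) * ∑ n ∈ Icc N (2 * N), ‖F (T + 1) a (Real.log n)‖ ^ 2 := by
      have h9 := sq_sum_le_card_mul_sum_sq (s := Icc N (2 * N)) (f := fun n : ℕ => ‖F (T + 1) a (Real.log n)‖)
      rw [Nat.card_Icc] at h9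
      have e5 : 2 * N + 1 - N = N + 1 := by omega
      rw [e5] at h9
      push_cast at h9
      exact h9
    have hmain : (∑ n ∈ Icc N (2 * N), ‖F (T + 1) a (Real.log n)‖) ^ 2 ≤ (20 * L * B) ^ 2 := by
      refine hcs.trans ?_
      have h12 : ∑ n ∈ Icc N (2 * N), ‖F (T + 1) a (Real.log n)‖ ^ 2 ≤
          170 * (N * L) * s2 ^ 2 + 14 * ((N : ℝ) ^ ((1 + κ) / 2) * L) * s1 ^ 2 :=
        hsq.trans (add_le_add (mul_le_mul_of_nonneg_right hA (sq_nonneg _))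
          (mul_le_mul_of_nonneg_right hmu (sq_nonneg _)))
      have h13 : ((N : ℝ) + 1) * ∑ n ∈ Icc N (2 * N), ‖F (T + 1) a (Real.log n)‖ ^ 2 ≤
          (2 * N) * (170 * (N * L) * s2 ^ 2 + 14 * ((N : ℝ) ^ ((1 + κ) / 2) * L) * s1 ^ 2) :=
        mul_le_mul (by linarith) h12 (sum_nonneg fun _ _ => sq_nonneg _) (by positivity)
      refine h13.trans ?_
      have h14 : (2 * (N : ℝ)) * (170 * (N * L) * s2 ^ 2 + 14 * ((N : ℝ) ^ ((1 + κ) / 2) * L) * s1 ^ 2) =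
          L * (340 * (N * s2) ^ 2 + 28 * (P ^ 2 * s1 ^ 2)) := by
        rw [hP2]
        ring
      rw [h14]
      have h15 : 340 * (N * s2) ^ 2 + 28 * (P ^ 2 * s1 ^ 2) ≤ 400 * B ^ 2 := by
        rw [hB, ← mul_pow P s1 2]
        exact hal_arith _ _ (by positivity) (by positivity)
      have h17 : L ≤ L ^ 2 := le_self_pow₀ hL1 (by norm_num)
      calc L * (340 * (N * s2) ^ 2 + 28 * (P ^ 2 * s1 ^ 2)) ≤ L ^ 2 * (400 * B ^ 2) :=
            mul_le_mul h17 h15 (by positivity) (by positivity)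
        _ = (20 * L * B) ^ 2 := by ring
    exact (sq_le_sq₀ (sum_nonneg fun _ _ => norm_nonneg _) (by positivity)).1 hmain
  refine hgoal.trans ?_
  have h18 := mul_le_mul_of_nonneg_right (mul_le_mul_of_nonneg_left hLe (by norm_num : (0 : ℝ) ≤ 20)) hB0
  linarith

end Pool.Agent.P8H29.RF
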