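import Pool.Agent.P8H16.RF.Stm
import Pool.Agent.Y959.Rs.Mk

/-!
# Project RF, package ONE
-/

set_option autoImplicit false

open Finset

namespace Pool.Agent.P8H29.RF

open Pool.Agent.P8H16.RF Pool.Agent.TH705.DL Pool.Agent.Y959.Rs

/-- the phase -/
theorem phase (z : ℂ) : ∃ b : ℂ, ‖b‖ ≤ 1 ∧ b * z = ((‖z‖ : ℝ) : ℂ) := by
  by_cases h : z = 0
  · exact ⟨0, by simp, by simp [h]⟩
  · refine ⟨(starRingEnd ℂ) z / ((‖z‖ : ℝ) : ℂ), ?_, ?_⟩
    · rw [norm_div, RCLike.norm_conj, Complex.norm_real, norm_norm, div_self (norm_ne_zero_iff.2 h)]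
    · have h1 : ((‖z‖ : ℝ) : ℂ) ≠ 0 := by exact_mod_cast norm_ne_zero_iff.2 h
      rw [div_mul_eq_mul_div, mul_comm, Complex.mul_conj', div_eq_iff h1]
      ring

theorem one : S_ONE := by
  intro ε hε
  obtain ⟨K, hK0, hK⟩ := moment_W (2 * ε) (by linarith) 1
  refine ⟨2 * Real.sqrt K, by positivity, ?_⟩
  intro N M a hN hM
  have hN1 : (1 : ℝ) ≤ N := by exact_mod_cast hN
  have hN0 : (0 : ℝ) < N := by linarith
  obtain ⟨s2, hs2⟩ : ∃ s2 : ℝ, s2 = n2 M a := ⟨_, rfl⟩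
  obtain ⟨s1, hs1⟩ : ∃ s1 : ℝ, s1 = n1 M a := ⟨_, rfl⟩
  have h20 : 0 ≤ s2 := by rw [hs2]; exact Real.sqrt_nonneg _
  have h10 : 0 ≤ s1 := by rw [hs1]; exact sum_nonneg fun _ _ => norm_nonneg _
  rw [← hs2, ← hs1]
  rcases Nat.eq_zero_or_pos M with h0 | hpos
  · have : ∑ n ∈ Icc N (2 * N), ‖F M a (Real.log n)‖ = 0 := by
      refine sum_eq_zero fun n _ => ?_
      unfold F
      simp [h0]
    rw [this]
    positivity
  obtain ⟨T, rfl⟩ : ∃ T : ℕ, M = T + 1 := ⟨M - 1, by omega⟩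
  have hT : (T : ℝ) ≤ N := by
    rw [Real.rpow_one] at hM
    push_cast at hM
    linarith
  have hT0 : (0 : ℝ) ≤ T := Nat.cast_nonneg _
  choose b hb1 hb2 using fun n : ℕ => phase (F (T + 1) a (Real.log n))
  -- duality
  have hdual : ((∑ n ∈ Icc N (2 * N), ‖F (T + 1) a (Real.log n)‖ : ℝ) : ℂ) =
      ∑ i : Fin (T + 1), a (i : ℕ) * ∑ n ∈ Icc N (2 * N), b n * ex T i n := by
    push_cast
    have h1 : ∀ n ∈ Icc N (2 * N), ((‖F (T + 1) a (Real.log n)‖ : ℝ) : ℂ) =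
        ∑ i : Fin (T + 1), a (i : ℕ) * (b n * ex T i n) := by
      intro n _
      rw [← hb2 n]
      unfold F
      rw [Finset.sum_range, mul_sum]
      refine sum_congr rfl fun i _ => ?_
      unfold ex
      rw [ph_eq]
      unfold e
      ring
    rw [sum_congr rfl h1, sum_comm]
    refine sum_congr rfl fun i _ => ?_
    rw [mul_sum]
  obtain ⟨D, hD⟩ : ∃ D : Fin (T + 1) → ℂ, D = fun i => ∑ n ∈ Icc N (2 * N), b n * ex T i n := ⟨_, rfl⟩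
  have hle : ∑ n ∈ Icc N (2 * N), ‖F (T + 1) a (Real.log n)‖ ≤ ∑ i : Fin (T + 1), ‖a (i : ℕ)‖ * ‖D i‖ := by
    have h0 : 0 ≤ ∑ n ∈ Icc N (2 * N), ‖F (T + 1) a (Real.log n)‖ := sum_nonneg fun _ _ => norm_nonneg _
    rw [← Real.norm_of_nonneg h0, ← Complex.norm_real, hdual]
    refine (norm_sum_le _ _).trans (sum_le_sum fun i _ => ?_)
    rw [norm_mul, hD]
  have hmom := hK N T hN univ b
  have hb3 : ∑ n ∈ Icc N (2 * N), ‖b n‖ ^ 2 ≤ 2 * N := by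
    have h1 : ∑ n ∈ Icc N (2 * N), ‖b n‖ ^ 2 ≤ ∑ _n ∈ Icc N (2 * N), (1 : ℝ) :=
      sum_le_sum fun n _ => pow_le_one₀ (norm_nonneg _) (hb1 n)
    refine h1.trans ?_
    rw [sum_const, Nat.card_Icc, nsmul_eq_mul, mul_one]
    have : 2 * N + 1 - N = N + 1 := by omega
    rw [this]
    push_cast
    linarith
  rw [mul_one, pow_one, pow_one] at hmom
  have hD2 : ∑ i : Fin (T + 1), ‖D i‖ ^ 2 ≤ (2 * Real.sqrt K * (N : ℝ) ^ ε * N) ^ 2 := by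
    have h1 : K * (N : ℝ) ^ (2 * ε) * (T + (N : ℝ)) * ∑ n ∈ Icc N (2 * N), ‖b n‖ ^ 2 ≤
        K * (N : ℝ) ^ (2 * ε) * (2 * N) * (2 * N) := by
      refine mul_le_mul (mul_le_mul_of_nonneg_left (by linarith) (by positivity)) hb3
        (sum_nonneg fun _ _ => sq_nonneg _) (by positivity)
    rw [hD]
    refine hmom.trans (h1.trans (le_of_eq ?_))
    rw [mul_pow, mul_pow, mul_pow, Real.sq_sqrt hK0.le, ← Real.rpow_natCast ((N : ℝ) ^ ε), ← Real.rpow_mul hN0.le]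
    have e4 : ε * ((2 : ℕ) : ℝ) = 2 * ε := by push_cast; ring
    rw [e4]
    ring
  have hcs : ∑ i : Fin (T + 1), ‖a (i : ℕ)‖ * ‖D i‖ ≤ s2 * (2 * Real.sqrt K * (N : ℝ) ^ ε * N) := by
    have h1 := Real.sum_mul_le_sqrt_mul_sqrt univ (fun i : Fin (T + 1) => ‖a (i : ℕ)‖) (fun i => ‖D i‖)
    refine h1.trans ?_
    have h2 : Real.sqrt (∑ i : Fin (T + 1), ‖a (i : ℕ)‖ ^ 2) = s2 := by
      rw [hs2]
      unfold n2
      rw [Finset.sum_range]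
    rw [h2]
    refine mul_le_mul_of_nonneg_left ?_ h20
    exact Real.sqrt_le_iff.2 ⟨by positivity, hD2⟩
  refine hle.trans (hcs.trans ?_)
  have h3 : 0 ≤ 2 * Real.sqrt K * (N : ℝ) ^ ε * ((N : ℝ) ^ (1 / 2 : ℝ) * s1) := by positivity
  linarith

end Pool.Agent.P8H29.RF
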