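import Pool.Agent.P8H16.RF.Stm
import Pool.Agent.P8H75.SU.Tail

/-!
# Project RF, package SWP
-/

set_option autoImplicit false

open Finset MeasureTheory

namespace Pool.Agent.P8H29.RF

open Pool.Agent.P8H16.RF Pool.Agent.P8H75.SU

/-- one copy: contraction, hull, exponential moments -/
theorem one_copy {ι J : Type} [Fintype ι] [DecidableEq ι] [Fintype J] (γ : J → ι → ℝ)
    (hγ : ∀ j n, |γ j n| ≤ 1) (v : ℝ) (hv : 0 ≤ v) (hN : 0 < Fintype.card ι) (y : ℝ) (hy : y = 1 ∨ y = -1) :
    ∑ D ∈ (univ : Finset ι).powerset,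
        ind (∃ c : {c : J → ℝ // ∑ j, |c j| ≤ 1}, v < ∑ n, sg D n * (y * |cv γ c n|)) ≤
      2 ^ Fintype.card ι * (2 * (Fintype.card J : ℝ) * Real.exp (-(v ^ 2 / (2 * (Fintype.card ι : ℝ))))) := by
  have hN0 : (0 : ℝ) < Fintype.card ι := by exact_mod_cast hN
  obtain ⟨l, hl⟩ : ∃ l : ℝ, l = v / (Fintype.card ι : ℝ) := ⟨_, rfl⟩
  have hl0 : 0 ≤ l := by rw [hl]; positivity
  have h1 := contraction (fun _ : ι => y) (fun c : {c : J → ℝ // ∑ j, |c j| ≤ 1} => cv γ c) v univ (fun _ => 0)
  simp only [zero_add] at h1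
  refine h1.trans ?_
  have h2 : ∀ D ∈ (univ : Finset ι).powerset,
      ind (∃ c : {c : J → ℝ // ∑ j, |c j| ≤ 1}, v < ∑ n, sg D n * (y * cv γ c n)) ≤
      ∑ j, (ind (v < y * ∑ n, sg D n * γ j n) + ind (v < (-y) * ∑ n, sg D n * γ j n)) := by
    intro D _
    have h3 := hull γ univ (fun n => sg D n * y) v hv
    refine le_trans (le_of_eq ?_) (h3.trans (le_of_eq ?_))
    · congr 1
      simp only [eq_iff_iff]
      refine exists_congr fun c => ?_
      have e : ∑ n, sg D n * (y * cv γ c n) = ∑ n, sg D n * y * cv γ c n :=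
        sum_congr rfl fun n _ => by ring
      rw [e]
    · refine sum_congr rfl fun j _ => ?_
      have e : ∑ n, sg D n * y * γ j n = y * ∑ n, sg D n * γ j n := by
        rw [mul_sum]
        exact sum_congr rfl fun n _ => by ring
      rw [e, neg_mul]
  refine (sum_le_sum h2).trans ?_
  rw [sum_comm]
  have h6 : ∀ j : J, ∑ D ∈ (univ : Finset ι).powerset,
      (ind (v < y * ∑ n, sg D n * γ j n) + ind (v < (-y) * ∑ n, sg D n * γ j n)) ≤
      2 * (2 ^ Fintype.card ι * Real.exp (-(v ^ 2 / (2 * (Fintype.card ι : ℝ))))) := by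
    intro j
    rw [sum_add_distrib]
    have a1 := one_sum univ (γ j) v l hl0 y hy
    have hy' : -y = 1 ∨ -y = -1 := by
      rcases hy with h | h
      · right; rw [h]
      · left; rw [h]; norm_num
    have a2 := one_sum univ (γ j) v l hl0 (-y) hy'
    have hz : ∑ n, γ j n ^ 2 ≤ (Fintype.card ι : ℝ) := by
      have : ∑ n, γ j n ^ 2 ≤ ∑ _n : ι, (1 : ℝ) := by
        refine sum_le_sum fun n _ => ?_
        rw [← sq_abs]
        exact pow_le_one₀ (abs_nonneg _) (hγ j n)
      refine this.trans ?_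
      simp
    have a3 : Real.exp (-(l * v)) * (2 ^ (univ : Finset ι).card * Real.exp (l ^ 2 / 2 * ∑ n, γ j n ^ 2)) ≤
        2 ^ Fintype.card ι * Real.exp (-(v ^ 2 / (2 * (Fintype.card ι : ℝ)))) := by
      rw [card_univ, mul_left_comm, ← Real.exp_add]
      refine mul_le_mul_of_nonneg_left (Real.exp_le_exp.2 ?_) (by positivity)
      have h7 : l ^ 2 / 2 * ∑ n, γ j n ^ 2 ≤ l ^ 2 / 2 * (Fintype.card ι : ℝ) :=
        mul_le_mul_of_nonneg_left hz (by positivity)
      have h8 : -(l * v) + l ^ 2 / 2 * (Fintype.card ι : ℝ) = -(v ^ 2 / (2 * (Fintype.card ι : ℝ))) := by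
        rw [hl]
        field_simp
        ring
      linarith
    linarith
  refine (sum_le_sum fun j _ => h6 j).trans (le_of_eq ?_)
  rw [sum_const, card_univ, nsmul_eq_mul]
  ring

open Classical in
/-- swap the coordinates in `D` -/
noncomputable def swp {ι : Type} (D : Finset ι) (q : (ι → unitInterval) × (ι → unitInterval)) :
    (ι → unitInterval) × (ι → unitInterval) :=
  (fun n => if n ∈ D then q.2 n else q.1 n, fun n => if n ∈ D then q.1 n else q.2 n)

theorem swp_mp {ι : Type} [Fintype ι] (D : Finset ι) :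
    MeasurePreserving (swp D) ((volume : Measure (ι → unitInterval)).prod volume)
      ((volume : Measure (ι → unitInterval)).prod volume) := by
  classical
  have h1 := measurePreserving_arrowProdEquivProdArrow unitInterval unitInterval ι
    (fun _ => (volume : Measure unitInterval)) (fun _ => (volume : Measure unitInterval))
  have h2 : MeasurePreserving
      (fun (a : ι → unitInterval × unitInterval) (i : ι) => (if i ∈ D then Prod.swap (a i) else a i))
      (Measure.pi fun _ : ι => (volume : Measure unitInterval).prod volume)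
      (Measure.pi fun _ : ι => (volume : Measure unitInterval).prod volume) := by
    refine measurePreserving_pi (f := fun (i : ι) (p : unitInterval × unitInterval) =>
      (if i ∈ D then Prod.swap p else p)) _ _ fun i => ?_
    by_cases h : i ∈ D
    · simp only [h, if_true]
      exact Measure.measurePreserving_swap
    · simp only [h, if_false]
      exact MeasurePreserving.id _
  have h3 := h1.comp (h2.comp h1.symm)
  have e : swp D = (MeasurableEquiv.arrowProdEquivProdArrow unitInterval unitInterval ι) ∘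
      ((fun (a : ι → unitInterval × unitInterval) (i : ι) => (if i ∈ D then Prod.swap (a i) else a i)) ∘
        (MeasurableEquiv.arrowProdEquivProdArrow unitInterval unitInterval ι).symm) := by
    funext q
    unfold swp
    refine Prod.ext ?_ ?_
    · funext n
      by_cases h : n ∈ D
      · simp [h, MeasurableEquiv.arrowProdEquivProdArrow, Equiv.arrowProdEquivProdArrow]
      · simp [h, MeasurableEquiv.arrowProdEquivProdArrow, Equiv.arrowProdEquivProdArrow]
    · funext n
      by_cases h : n ∈ D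
      · simp [h, MeasurableEquiv.arrowProdEquivProdArrow, Equiv.arrowProdEquivProdArrow]
      · simp [h, MeasurableEquiv.arrowProdEquivProdArrow, Equiv.arrowProdEquivProdArrow]
  rw [e]
  exact h3

theorem bad2_open {ι J : Type} [Fintype ι] [Fintype J] (γ : J → ι → unitInterval → ℝ)
    (hc : ∀ j n, Continuous (γ j n)) (v : ℝ) : IsOpen (Bad2 γ v) := by
  have e : Bad2 γ v = ⋃ c : {c : J → ℝ // ∑ j, |c j| ≤ 1}, {q : (ι → unitInterval) × (ι → unitInterval) |
      v < ∑ n, (|∑ j, c.1 j * γ j n (q.1 n)| - |∑ j, c.1 j * γ j n (q.2 n)|)} := by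
    ext q
    simp only [Bad2, Set.mem_ofPred_eq, Set.mem_iUnion, Subtype.exists, exists_prop]
  rw [e]
  refine isOpen_iUnion fun c => isOpen_lt continuous_const ?_
  refine continuous_finsetSum _ fun n _ => ?_
  refine Continuous.sub ?_ ?_
  · refine (continuous_finsetSum _ fun j _ => ?_).abs
    exact continuous_const.mul ((hc j n).comp ((continuous_apply n).comp continuous_fst))
  · refine (continuous_finsetSum _ fun j _ => ?_).abs
    exact continuous_const.mul ((hc j n).comp ((continuous_apply n).comp continuous_snd))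

theorem swap_point {ι J : Type} [Fintype ι] [DecidableEq ι] [Fintype J] (γ : J → ι → unitInterval → ℝ)
    (hb : ∀ j n ω, |γ j n ω| ≤ 1) (v : ℝ) (hv : 0 ≤ v) (hN : 0 < Fintype.card ι)
    (q : (ι → unitInterval) × (ι → unitInterval)) :
    ∑ D ∈ (univ : Finset ι).powerset, ind (swp D q ∈ Bad2 γ v) ≤
      2 ^ Fintype.card ι * (4 * (Fintype.card J : ℝ) * Real.exp (-(v ^ 2 / (8 * (Fintype.card ι : ℝ))))) := by
  have h1 := one_copy (fun j n => γ j n (q.1 n)) (fun j n => hb j n _) (v / 2) (by linarith) hN 1 (Or.inl rfl)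
  have h2 := one_copy (fun j n => γ j n (q.2 n)) (fun j n => hb j n _) (v / 2) (by linarith) hN (-1) (Or.inr rfl)
  have h3 : ∀ D ∈ (univ : Finset ι).powerset, ind (swp D q ∈ Bad2 γ v) ≤
      ind (∃ c : {c : J → ℝ // ∑ j, |c j| ≤ 1}, v / 2 < ∑ n, sg D n * (1 * |cv (fun j n => γ j n (q.1 n)) c n|)) +
      ind (∃ c : {c : J → ℝ // ∑ j, |c j| ≤ 1}, v / 2 < ∑ n, sg D n * (-1 * |cv (fun j n => γ j n (q.2 n)) c n|)) := by
    intro D _
    by_cases hP : swp D q ∈ Bad2 γ v
    · rw [ind_true hP]
      obtain ⟨c, hc1, hc2⟩ := hP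
      have e : ∑ n, (|∑ j, c j * γ j n ((swp D q).1 n)| - |∑ j, c j * γ j n ((swp D q).2 n)|) =
          ∑ n, sg D n * (1 * |cv (fun j n => γ j n (q.1 n)) ⟨c, hc1⟩ n|) +
          ∑ n, sg D n * (-1 * |cv (fun j n => γ j n (q.2 n)) ⟨c, hc1⟩ n|) := by
        rw [← sum_add_distrib]
        refine sum_congr rfl fun n _ => ?_
        unfold swp sg cv
        by_cases h : n ∈ D
        · simp only [h, if_true]
          ring
        · simp only [h, if_false]
          ring
      rw [e] at hc2
      by_cases hA : v / 2 < ∑ n, sg D n * (1 * |cv (fun j n => γ j n (q.1 n)) ⟨c, hc1⟩ n|)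
      · rw [ind_true ⟨_, hA⟩]
        have := ind_nonneg (∃ c : {c : J → ℝ // ∑ j, |c j| ≤ 1},
          v / 2 < ∑ n, sg D n * (-1 * |cv (fun j n => γ j n (q.2 n)) c n|))
        linarith
      · have hB : v / 2 < ∑ n, sg D n * (-1 * |cv (fun j n => γ j n (q.2 n)) ⟨c, hc1⟩ n|) := by
          push Not at hA
          linarith
        rw [ind_true (P := ∃ c : {c : J → ℝ // ∑ j, |c j| ≤ 1},
          v / 2 < ∑ n, sg D n * (-1 * |cv (fun j n => γ j n (q.2 n)) c n|)) ⟨_, hB⟩]
        have := ind_nonneg (∃ c : {c : J → ℝ // ∑ j, |c j| ≤ 1},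
          v / 2 < ∑ n, sg D n * (1 * |cv (fun j n => γ j n (q.1 n)) c n|))
        linarith
    · rw [ind_false hP]
      exact add_nonneg (ind_nonneg _) (ind_nonneg _)
  refine (sum_le_sum h3).trans ?_
  rw [sum_add_distrib]
  have e : (v / 2) ^ 2 / (2 * (Fintype.card ι : ℝ)) = v ^ 2 / (8 * (Fintype.card ι : ℝ)) := by
    rw [div_pow, div_div]
    congr 1
    ring
  rw [e] at h1 h2
  linarith

theorem swpT : S_SWP := by
  classical
  intro ι J _ _ γ hc hb v hv
  rcases Nat.eq_zero_or_pos (Fintype.card ι) with h0 | hN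
  · have hemp : Bad2 γ v = ∅ := by
      ext q
      simp only [Bad2, Set.mem_ofPred_eq, Set.mem_empty_iff_false, iff_false, not_exists, not_and, not_lt]
      intro c _
      have : IsEmpty ι := Fintype.card_eq_zero_iff.1 h0
      simp [hv]
    rw [hemp, measure_empty]
    exact zero_le
  obtain ⟨μ, hμ⟩ : ∃ μ : Measure ((ι → unitInterval) × (ι → unitInterval)),
    μ = (volume : Measure (ι → unitInterval)).prod volume := ⟨_, rfl⟩
  have hprob : IsProbabilityMeasure μ := by rw [hμ]; infer_instance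
  rw [← hμ]
  have hms : MeasurableSet (Bad2 γ v) := (bad2_open γ hc v).measurableSet
  have hpre : ∀ D : Finset ι, μ (swp D ⁻¹' Bad2 γ v) = μ (Bad2 γ v) := by
    intro D
    rw [hμ]
    exact (swp_mp D).measure_preimage hms.nullMeasurableSet
  have hmeasD : ∀ D : Finset ι, MeasurableSet (swp D ⁻¹' Bad2 γ v) := fun D =>
    (swp_mp D).measurable hms
  obtain ⟨B, hB⟩ : ∃ B : ℝ, B = 4 * (Fintype.card J : ℝ) * Real.exp (-(v ^ 2 / (8 * (Fintype.card ι : ℝ)))) := ⟨_, rfl⟩
  rw [← hB]
  have hB0 : 0 ≤ B := by rw [hB]; positivity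
  have hkey : (2 ^ Fintype.card ι : ENNReal) * μ (Bad2 γ v) ≤ 2 ^ Fintype.card ι * ENNReal.ofReal B := by
    calc (2 ^ Fintype.card ι : ENNReal) * μ (Bad2 γ v)
        = ∑ D ∈ (univ : Finset ι).powerset, μ (swp D ⁻¹' Bad2 γ v) := by
          rw [sum_congr rfl fun D _ => hpre D, sum_const, card_powerset, card_univ, nsmul_eq_mul]
          push_cast
          ring
      _ = ∑ D ∈ (univ : Finset ι).powerset, ∫⁻ q, (swp D ⁻¹' Bad2 γ v).indicator 1 q ∂μ := by
          refine sum_congr rfl fun D _ => ?_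
          rw [lintegral_indicator_one (hmeasD D)]
      _ = ∫⁻ q, ∑ D ∈ (univ : Finset ι).powerset, (swp D ⁻¹' Bad2 γ v).indicator 1 q ∂μ := by
          rw [lintegral_finsetSum]
          intro D _
          exact measurable_one.indicator (hmeasD D)
      _ ≤ ∫⁻ _q, (2 ^ Fintype.card ι * ENNReal.ofReal B) ∂μ := by
          refine lintegral_mono fun q => ?_
          have h1 : ∀ D ∈ (univ : Finset ι).powerset, (swp D ⁻¹' Bad2 γ v).indicator (1 : (ι → unitInterval) × (ι → unitInterval) → ENNReal) q =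
              ENNReal.ofReal (ind (swp D q ∈ Bad2 γ v)) := by
            intro D _
            by_cases h : swp D q ∈ Bad2 γ v
            · rw [ind_true h, ENNReal.ofReal_one, Set.indicator_of_mem (show q ∈ swp D ⁻¹' Bad2 γ v from h)]
              rfl
            · rw [ind_false h, ENNReal.ofReal_zero, Set.indicator_of_notMem (show q ∉ swp D ⁻¹' Bad2 γ v from h)]
          have h3 := swap_point γ hb v hv hN q
          rw [← hB] at h3
          calc ∑ D ∈ (univ : Finset ι).powerset, (swp D ⁻¹' Bad2 γ v).indicator (1 : (ι → unitInterval) × (ι → unitInterval) → ENNReal) q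
              = ∑ D ∈ (univ : Finset ι).powerset, ENNReal.ofReal (ind (swp D q ∈ Bad2 γ v)) := sum_congr rfl h1
            _ = ENNReal.ofReal (∑ D ∈ (univ : Finset ι).powerset, ind (swp D q ∈ Bad2 γ v)) :=
                (ENNReal.ofReal_sum_of_nonneg fun D _ => ind_nonneg _).symm
            _ ≤ ENNReal.ofReal (2 ^ Fintype.card ι * B) := ENNReal.ofReal_le_ofReal h3
            _ = 2 ^ Fintype.card ι * ENNReal.ofReal B := by
                rw [ENNReal.ofReal_mul (by positivity), ENNReal.ofReal_pow (by norm_num), ENNReal.ofReal_ofNat]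
      _ = 2 ^ Fintype.card ι * ENNReal.ofReal B := by
          rw [lintegral_const, measure_univ, mul_one]
  have h2 : (2 ^ Fintype.card ι : ENNReal) ≠ 0 := by positivity
  have h3 : (2 ^ Fintype.card ι : ENNReal) ≠ ⊤ := ENNReal.pow_ne_top (by norm_num)
  exact (ENNReal.mul_le_mul_iff_right h2 h3).1 hkey

end Pool.Agent.P8H29.RF
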